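import Pool.Agent.H24.RCN.Targets

/-!
# Row FRQ: congruence modulo `r ^ e` for elements with `κ`-th power one
-/

set_option autoImplicit false

open NumberField Pool.Agent.H24.RCN

namespace Pool.Agent.H52.RCN

theorem pf_FRQ : T_FRQ := by
  intro R _ r e κ X Y hr he hκ hκr hX hY hYX
  have hr1 : 1 < r := hr.one_lt
  have hκlt : κ < r := by
    have := Nat.le_of_dvd (by omega) hκr
    omega
  have hcop : Nat.Coprime r κ := by
    rw [Nat.coprime_comm]
    exact Nat.Coprime.symm ((Nat.Prime.coprime_iff_not_dvd hr).2 fun h => by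
      have := Nat.le_of_dvd hκ.pos h
      omega)
  have hcopR : IsCoprime (r : R) (κ : R) := by
    have h := (Nat.isCoprime_iff_coprime.2 hcop).map (Int.castRingHom R)
    simpa using h
  have hre : (r : R) ∣ ((r ^ e : ℕ) : R) := by
    push_cast
    exact dvd_pow_self _ (by omega)
  have hX' : (r : R) ∣ X ^ κ - 1 := hre.trans hX
  have hcopX : IsCoprime (r : R) X := by
    obtain ⟨t, ht⟩ := hX'
    refine ⟨-t, X ^ (κ - 1), ?_⟩
    have : X ^ (κ - 1) * X = X ^ κ := by
      rw [← pow_succ]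
      congr 1
      have := hκ.pos
      omega
    rw [this]
    linear_combination ht
  obtain ⟨m, hm⟩ := hκr
  have hXr : (r : R) ∣ X ^ r - X := by
    have h1 : X ^ r - X = X * ((X ^ κ) ^ m - 1) := by
      rw [← pow_mul, ← hm, mul_sub, mul_one, ← pow_succ']
      congr 2
      omega
    rw [h1]
    refine Dvd.dvd.mul_left ?_ X
    exact hX'.trans (by simpa using sub_dvd_pow_sub_pow (X ^ κ) 1 m)
  have hYX' : (r : R) ∣ Y - X := by
    have := dvd_add hYX hXr
    simpa using this
  have hS : (r : R) ∣ (∑ i ∈ Finset.range κ, Y ^ i * X ^ (κ - 1 - i)) - (κ : R) * X ^ (κ - 1) := by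
    have h1 : (κ : R) * X ^ (κ - 1) = ∑ i ∈ Finset.range κ, X ^ i * X ^ (κ - 1 - i) := by
      rw [Finset.sum_congr rfl (g := fun _ => X ^ (κ - 1))]
      · simp
      · intro i hi
        rw [← pow_add]
        congr 1
        have := Finset.mem_range.1 hi
        omega
    rw [h1, ← Finset.sum_sub_distrib]
    refine Finset.dvd_sum fun i _ => ?_
    rw [← sub_mul]
    exact Dvd.dvd.mul_right (hYX'.trans (sub_dvd_pow_sub_pow Y X i)) _
  have hcopS : IsCoprime ((r ^ e : ℕ) : R) (∑ i ∈ Finset.range κ, Y ^ i * X ^ (κ - 1 - i)) := by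
    push_cast
    refine IsCoprime.pow_left ?_
    obtain ⟨w, hw⟩ := hS
    have h2 : (∑ i ∈ Finset.range κ, Y ^ i * X ^ (κ - 1 - i)) =
        (κ : R) * X ^ (κ - 1) + (r : R) * w := by
      linear_combination hw
    rw [h2]
    exact (IsCoprime.mul_right hcopR (hcopX.pow_right)).add_mul_left_right w
  have hfin : ((r ^ e : ℕ) : R) ∣ (Y - X) * ∑ i ∈ Finset.range κ, Y ^ i * X ^ (κ - 1 - i) := by
    have h3 : (Y - X) * ∑ i ∈ Finset.range κ, Y ^ i * X ^ (κ - 1 - i) = Y ^ κ - X ^ κ := by
      rw [mul_comm]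
      exact geom_sum₂_mul Y X κ
    rw [h3]
    have := dvd_sub hY hX
    simpa using this
  exact hcopS.dvd_of_dvd_mul_right hfin

end Pool.Agent.H52.RCN
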