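import Pool.Agent.H24.RCN.Targets

/-!
# Row KAP: the `κ`-th power of a unit of norm a root of unity
-/

set_option autoImplicit false

open NumberField Pool.Agent.H24.RCN

namespace Pool.Agent.H52.RCN

theorem un_mul {L : Type} [Field L] {x y : L} (hx : Un x) (hy : Un y) : Un (x * y) :=
  ⟨mul_ne_zero hx.1 hy.1, hx.2.1.mul hy.2.1, by rw [mul_inv]; exact hx.2.2.mul hy.2.2⟩

theorem un_inv {L : Type} [Field L] {x : L} (hx : Un x) : Un x⁻¹ :=
  ⟨inv_ne_zero hx.1, hx.2.2, by rw [inv_inv]; exact hx.2.1⟩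

theorem un_one {L : Type} [Field L] : Un (1 : L) :=
  ⟨one_ne_zero, isIntegral_one, by rw [inv_one]; exact isIntegral_one⟩

theorem un_map {F L : Type} [Field F] [Field L] [Algebra F L] (τ : L ≃ₐ[F] L) {x : L}
    (hx : Un x) : Un (τ x) := by
  have hint : ∀ y : L, IsIntegral ℤ y → IsIntegral ℤ (τ y) := fun y hy =>
    hy.map (τ : L →+* L).toIntAlgHom
  refine ⟨?_, hint x hx.2.1, ?_⟩
  · exact fun h => hx.1 (by simpa using h)
  · rw [← map_inv₀]
    exact hint _ hx.2.2

theorem un_prod {L : Type} [Field L] (f : ℕ → L) (n : ℕ) (h : ∀ i, Un (f i)) :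
    Un (∏ i ∈ Finset.range n, f i) := by
  induction n with
  | zero => simpa using un_one
  | succ m ih => rw [Finset.prod_range_succ]; exact un_mul ih (h m)

theorem pf_KAP (hnpr : T_NPR) : T_KAP := by
  intro F L _ _ _ _ _ κ σ J hκ hE u hu hT
  obtain ⟨hN, -⟩ := hnpr F L κ σ J hκ hE
  have hs : ∀ (j : ℕ), σ ((σ ^ j) u) = (σ ^ (j + 1)) u := by
    intro j
    rw [pow_succ']
    rfl
  have hne : ∀ j : ℕ, (σ ^ j) u ≠ 0 := fun j => (un_map (σ ^ j) hu).1
  set v : ℕ → L := fun i => ∏ j ∈ Finset.range i, (σ ^ j) u with hv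
  have hvu : ∀ i, Un (v i) := fun i => un_prod _ _ fun j => un_map (σ ^ j) hu
  have hvs : ∀ i, σ (v i) * u = (σ ^ i) u * v i := by
    intro i
    induction i with
    | zero => simp [hv]
    | succ m ih =>
      have h1 : v (m + 1) = v m * (σ ^ m) u := by
        simp only [hv]
        rw [Finset.prod_range_succ]
      rw [h1, map_mul, hs]
      linear_combination (σ ^ (m + 1)) u * ih
  set z : L := (∏ i ∈ Finset.range κ, v i)⁻¹ with hz
  have hzu : Un z := un_inv (un_prod _ _ hvu)
  refine ⟨z, algebraMap F L (Algebra.norm F u), hzu, ?_, ?_⟩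
  · obtain ⟨n, hn, hn'⟩ := hT
    exact ⟨n, hn, by rw [← map_pow, hn', map_one]⟩
  · have hsz : σ z * (∏ i ∈ Finset.range κ, (σ ^ i) u) = z * u ^ κ := by
      have h2 : ∀ n : ℕ, σ (∏ i ∈ Finset.range n, v i) * u ^ n =
          (∏ i ∈ Finset.range n, (σ ^ i) u) * ∏ i ∈ Finset.range n, v i := by
        intro n
        induction n with
        | zero => simp
        | succ m ih =>
          rw [Finset.prod_range_succ, Finset.prod_range_succ, map_mul, pow_succ]
          have h3 := hvs m
          calc σ (∏ i ∈ Finset.range m, v i) * σ (v m) * (u ^ m * u)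
              = (σ (∏ i ∈ Finset.range m, v i) * u ^ m) * (σ (v m) * u) := by ring
            _ = _ := by rw [ih, h3]; ring
      have hP : (∏ i ∈ Finset.range κ, v i) ≠ 0 := (un_prod _ _ hvu).1
      have hsP : σ (∏ i ∈ Finset.range κ, v i) ≠ 0 := (un_map σ (un_prod _ _ hvu)).1
      have h4 := h2 κ
      rw [hz, map_inv₀]
      field_simp
      linear_combination -h4
    rw [hN u]
    have hz0 : z ≠ 0 := hzu.1
    field_simp
    linear_combination -hsz

end Pool.Agent.H52.RCN
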